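import Pool.Agent.Lib.MP_b66790_nt.Hecke.FinC24

/-!
# The profinite Grothendieck-Teichmueller group commutes with the Chebyshev polynomials
-/

namespace Pool.Agent.Results.MP_b66790_nt.Chebyshev

open MPb66790 MPb66790.HK24

/-- Let `T` be the Chebyshev polynomial of degree `n + 1`, `T (cos t) = cos ((n + 1) t)`. For every
element `F = (lam, f)` of the profinite Grothendieck-Teichmueller group and every dessin `β` (a
subgroup `H` of the free profinite group on the loops `x, y` around `1, -1`), `F (T ∘ β)` and
`T ∘ F β` are the same dessin. -/
theorem result (lam : ZHat) (f : FHat 2) (h : IsGT lam f) (n : ℕ) (H : Subgroup (FHat 2)) :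
    SameDessin (act lam f (cheb n H)) (cheb n (act lam f H)) :=
  cheb_24 lam f h n H

end Pool.Agent.Results.MP_b66790_nt.Chebyshev
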