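import Pool.Agent.Lib.MP_b66790_nt.CY.Fin24

/-!
# The profinite Grothendieck-Teichmueller group commutes with cyclic Belyi functions of the sphere
-/

namespace Pool.Agent.Results.MP_b66790_nt.CyclicBelyi

open MPb66790 MPb66790.CY24

/-- For every element `F = (lam, f)` of the profinite Grothendieck-Teichmueller group, every
`γ = γ₁ ∘ ⋯ ∘ γₙ` with `γᵢ` among `1 - z`, `1 / (1 - z)` and the cyclic Belyi functions `M ^ N`
(where `M` is a Moebius map that takes `0, 1, ∞` to three distinct points among `0`, `∞` and the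
`N`-th roots of unity, see `Cyc`) and every dessin `β` (an open subgroup `H` of the free profinite
group on `x, y`), `F (γ ∘ β)` and `γ' ∘ F β` are the same dessin, where `γ'` is `γ` with every root
of unity `ζ` replaced by `ζ ^ lam`. -/
theorem result (lam : ZHat) (f : FHat 2) (h : IsGT lam f) (w : List Cyc)
    (hw : ∀ γ ∈ w, γ.Good) (H : Subgroup (FHat 2)) (hH : IsOpen (H : Set (FHat 2))) :
    (∀ γ ∈ w, (γ.twist lam).Good) ∧ IsOpen (comp w H : Set (FHat 2)) ∧
    SameDessin (act lam f (comp w H)) (comp (w.map (Cyc.twist lam)) (act lam f H)) := by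
  obtain ⟨h1, g, h2⟩ := final h w hw H
  refine ⟨fun γ hγ => good_twist h (hw γ hγ), h1 hH, g⁻¹, fun x => ?_⟩
  rw [h2]
  constructor
  · rintro ⟨y, hy, rfl⟩
    have e : g⁻¹ * (MulAut.conj g).toMonoidHom y * g⁻¹⁻¹ = y := by
      show g⁻¹ * (g * y * g⁻¹) * g⁻¹⁻¹ = y
      group
    rw [e]
    exact hy
  · intro hx
    refine ⟨_, hx, ?_⟩
    show g * (g⁻¹ * x * g⁻¹⁻¹) * g⁻¹ = x
    group

end Pool.Agent.Results.MP_b66790_nt.CyclicBelyi
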