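import Pool.Agent.Lib.MP_b66790_nt.Hecke.Final24

/-!
# The profinite Grothendieck-Teichmueller group commutes with the Hecke correspondences
-/

namespace Pool.Agent.Results.MP_b66790_nt.SameCusps

open MPb66790 MPb66790.HK24

/-- Let `F = (lam, f)` be an element of the profinite Grothendieck-Teichmueller group and let `g` be
an integer matrix with positive determinant. If the dessins `H` and `K` (up to conjugacy the
closures of subgroups `H₀`, `K₀` of finite index of the free group on `x, y`, embedded by `mat` in
the principal congruence subgroup of level two up to sign) are related by `g`, that is
`g H₀ = K₀ g` up to signs, then the dessins `F H` and `F K` are related by the same matrix `g`.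

By uniformisation two dessins are related in this way if and only if they are given by Belyi
functions `β₁`, `β₂` on the same Riemann surface with the same inverse image of `0, 1, ∞`. -/
theorem result (lam : ZHat) (f : FHat 2) (h : IsGT lam f) (g : Matrix (Fin 2) (Fin 2) ℤ)
    (hg : 0 < g.det) (H K : Subgroup (FHat 2)) (hHK : Isog g H K) :
    Isog g (act lam f H) (act lam f K) :=
  allX24 lam f h g hg H K hHK

end Pool.Agent.Results.MP_b66790_nt.SameCusps
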