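import Pool.Agent.Lib.MP_b66790_nt.Hecke.FinB24

/-!
# The profinite Grothendieck-Teichmueller group commutes with the Hecke correspondences of the
modular group between dessins and dessins of type `(3, 2, ∞)`
-/

namespace Pool.Agent.Results.MP_b66790_nt.Triangulations

open MPb66790 MPb66790.HK24

/-- Let `F = (lam, f)` be an element of the profinite Grothendieck-Teichmueller group and let `g` be
an integer matrix with positive determinant. Let `K` be a dessin of type `(3, 2, ∞)` (all
ramification indices over `0` divide `3` and all ramification indices over `1` divide `2`), given by
a subgroup `K₀` of finite index of the free group on `x, y`, mapped by `mat3` onto the modular group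
(up to sign). Let `H` be a dessin, given by a subgroup `H₀` of finite index: either of type
`(3, 2, ∞)`, with the representation `mat3` (if `b` is true), or arbitrary, with the representation
`mat` onto the principal congruence subgroup of level two up to sign (if `b` is false). If `H` and
`K` are related by `g`, that is `g H₀ = K₀ g` up to signs, then the dessins `F H` and `F K` are
related by the same matrix `g`.

By uniformisation two dessins of type `(3, 2, ∞)` are related in this way if and only if they are
given by Belyi functions `β₁`, `β₂` on the same Riemann surface with the same poles, the same points
of index `1` over `0` and the same points of index `1` over `1`. For instance `β₁` and `β₂` may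
belong to two equilateral triangulations of the same Riemann surface with the same vertices. An
arbitrary dessin `β₁` is related to a dessin `β₂` of type `(3, 2, ∞)` if and only if they are Belyi
functions on the same Riemann surface, all indices of `β₂` over `0` are `3`, all indices of `β₂`
over `1` are `2` and the poles of `β₂` are the points of `β₁⁻¹ {0, 1, ∞}`. -/
theorem result (lam : ZHat) (f : FHat 2) (h : IsGT lam f) (g : Matrix (Fin 2) (Fin 2) ℤ)
    (hg : 0 < g.det) (b : Bool) (H K : Subgroup (FHat 2)) (hHK : IsogB b g H K) :
    IsogB b g (act lam f H) (act lam f K) :=
  allB_24 h g hg b H K hHK

end Pool.Agent.Results.MP_b66790_nt.Triangulations
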